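import Pool.Agent.H62.RN.Rob

/-!
# Rational sets on spheres, dense in several circles
-/

set_option autoImplicit false

open Module

namespace Pool.Agent.H62.RN

open Pool.Agent.Results.MP_209919_co.InfiniteNonplanar

/-- The closure of `X` contains `k` circles of the sphere `‖x‖ ^ 2 = N` which lie in pairwise
orthogonal planes. -/
def HasCircles (d k : ℕ) (N : ℝ) (X : Set (Eu d)) : Prop :=
  ∃ (ι : Type) (_ : Fintype ι) (F : ι → (Eu 2 →ₗᵢ[ℝ] Eu d)) (z : ι → Eu d) (q : ι → ℝ),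
    Fintype.card ι = k ∧ (∀ i, 0 < q i) ∧ (∀ i, ‖z i‖ ^ 2 + q i = N) ∧
    (∀ i v, inner ℝ (z i) (F i v) = 0) ∧
    (∀ i j, i ≠ j → ∀ v w, inner ℝ (F i v) (F j w) = 0) ∧
    ∀ i v, ‖v‖ ^ 2 = q i → z i + F i v ∈ closure (X ∩ Set.range fun w => z i + F i w)

theorem HasCircles.mono {d k : ℕ} {N : ℝ} {X Y : Set (Eu d)} (h : HasCircles d k N X)
    (hXY : X ⊆ Y) : HasCircles d k N Y := by
  obtain ⟨ι, hι, F, z, q, h1, h2, h3, h4, h5, h6⟩ := h
  exact ⟨ι, hι, F, z, q, h1, h2, h3, h4, h5, fun i v hv =>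
    closure_mono (Set.inter_subset_inter_left _ hXY) (h6 i v hv)⟩

theorem comp_app {m d : ℕ} (L : Eu m →ₗᵢ[ℝ] Eu d) (G : Eu 2 →ₗᵢ[ℝ] Eu m) (v : Eu 2) :
    (L.comp G) v = L (G v) := rfl

theorem mem_closure_map {m d : ℕ} (L : Eu m →ₗᵢ[ℝ] Eu d) (e : Eu d) (X : Set (Eu m))
    (Z : Set (Eu d)) (hZ : (fun x => e + L x) '' X ⊆ Z) (G : Eu 2 →ₗᵢ[ℝ] Eu m) (z x : Eu m)
    (hx : x ∈ closure (X ∩ Set.range fun w => z + G w)) :
    e + L x ∈ closure (Z ∩ Set.range fun w => e + L z + L.comp G w) := by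
  have h : e + L x ∈ closure ((fun x => e + L x) '' (X ∩ Set.range fun w => z + G w)) :=
    image_closure_subset_closure_image (by fun_prop) ⟨x, hx, rfl⟩
  refine closure_mono ?_ h
  rintro _ ⟨_, ⟨h1, ⟨w, rfl⟩⟩, rfl⟩
  exact ⟨hZ ⟨_, h1, rfl⟩, ⟨w, by simp only [comp_app, map_add, add_assoc]⟩⟩

theorem norm_sq_add_map {m d : ℕ} (L : Eu m →ₗᵢ[ℝ] Eu d) (e : Eu d)
    (he : ∀ v, inner ℝ e (L v) = 0) (x : Eu m) : ‖e + L x‖ ^ 2 = ‖e‖ ^ 2 + ‖x‖ ^ 2 := by
  rw [norm_add_sq_real, he, L.norm_map]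
  ring

theorem HasCircles.map {m d k : ℕ} {M N : ℝ} {X : Set (Eu m)} (h : HasCircles m k M X)
    (L : Eu m →ₗᵢ[ℝ] Eu d) (e : Eu d) (he : ∀ v, inner ℝ e (L v) = 0) (hN : ‖e‖ ^ 2 + M = N) :
    HasCircles d k N ((fun x => e + L x) '' X) := by
  obtain ⟨ι, hι, F, z, q, h1, h2, h3, h4, h5, h6⟩ := h
  refine ⟨ι, hι, fun i => L.comp (F i), fun i => e + L (z i), q, h1, h2, ?_, ?_, ?_, ?_⟩
  · intro i
    rw [norm_sq_add_map L e he, ← hN, ← h3 i]
    ring
  · intro i v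
    beta_reduce
    rw [comp_app, inner_add_left, he, L.inner_map_map, h4, add_zero]
  · intro i j hij v w
    beta_reduce
    rw [comp_app, comp_app, L.inner_map_map, h5 i j hij]
  · intro i v hv
    have h := mem_closure_map L e X _ subset_rfl (F i) (z i) _ (h6 i v hv)
    rw [map_add, ← add_assoc] at h
    exact h

theorem circles_union {m n d k l : ℕ} {M1 M2 N : ℝ} {X : Set (Eu m)} {Y : Set (Eu n)}
    (h1 : HasCircles m k M1 X) (h2 : HasCircles n l M2 Y)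
    (L1 : Eu m →ₗᵢ[ℝ] Eu d) (L2 : Eu n →ₗᵢ[ℝ] Eu d) (e1 e2 : Eu d)
    (he1 : ∀ v, inner ℝ e1 (L1 v) = 0) (he2 : ∀ v, inner ℝ e2 (L2 v) = 0)
    (hN1 : ‖e1‖ ^ 2 + M1 = N) (hN2 : ‖e2‖ ^ 2 + M2 = N)
    (ho : ∀ v w, inner ℝ (L1 v) (L2 w) = 0) :
    HasCircles d (k + l) N ((fun x => e1 + L1 x) '' X ∪ (fun y => e2 + L2 y) '' Y) := by
  obtain ⟨ι, hι, F, z, q, a1, a2, a3, a4, a5, a6⟩ := h1
  obtain ⟨κ, hκ, G, w, r, b1, b2, b3, b4, b5, b6⟩ := h2
  refine ⟨ι ⊕ κ, inferInstance, Sum.elim (fun i => L1.comp (F i)) (fun i => L2.comp (G i)),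
    Sum.elim (fun i => e1 + L1 (z i)) (fun i => e2 + L2 (w i)), Sum.elim q r, ?_, ?_, ?_, ?_,
    ?_, ?_⟩
  · rw [Fintype.card_sum, a1, b1]
  · rintro (i | i)
    · exact a2 i
    · exact b2 i
  · rintro (i | i)
    · simp only [Sum.elim_inl]
      rw [norm_sq_add_map L1 e1 he1, ← hN1, ← a3 i]
      ring
    · simp only [Sum.elim_inr]
      rw [norm_sq_add_map L2 e2 he2, ← hN2, ← b3 i]
      ring
  · rintro (i | i) v
    · simp only [Sum.elim_inl]
      rw [comp_app, inner_add_left, he1, L1.inner_map_map, a4, add_zero]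
    · simp only [Sum.elim_inr]
      rw [comp_app, inner_add_left, he2, L2.inner_map_map, b4, add_zero]
  · rintro (i | i) (j | j) hij v u
    · simp only [Sum.elim_inl]
      rw [comp_app, comp_app, L1.inner_map_map]
      exact a5 i j (fun h => hij (by rw [h])) v u
    · simp only [Sum.elim_inl, Sum.elim_inr]
      exact ho _ _
    · simp only [Sum.elim_inl, Sum.elim_inr]
      rw [real_inner_comm]
      exact ho _ _
    · simp only [Sum.elim_inr]
      rw [comp_app, comp_app, L2.inner_map_map]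
      exact b5 i j (fun h => hij (by rw [h])) v u
  · rintro (i | i) v hv
    · have h := mem_closure_map L1 e1 X
        ((fun x => e1 + L1 x) '' X ∪ (fun y => e2 + L2 y) '' Y) Set.subset_union_left (F i) (z i) _
        (a6 i v hv)
      rw [map_add, ← add_assoc] at h
      exact h
    · have h := mem_closure_map L2 e2 Y
        ((fun x => e1 + L1 x) '' X ∪ (fun y => e2 + L2 y) '' Y) Set.subset_union_right (G i) (w i)
        _ (b6 i v hv)
      rw [map_add, ← add_assoc] at h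
      exact h

/-! ### Density in the circle -/

/-- the parametrisation of the circle by the real numbers -/
noncomputable def PR (q : ℝ) (t : ℝ) : Eu 2 :=
  !₂[Real.sqrt q * (2 * ((t ^ 2 - q) / (t ^ 2 + q)) ^ 2 - 1),
    2 * (2 * q * t / (t ^ 2 + q)) * ((t ^ 2 - q) / (t ^ 2 + q))]

theorem PP_eq (q t : ℚ) : PP q t = PR q t := by
  unfold PP PR cc ww
  push_cast
  rfl

theorem PR_cont {q : ℝ} (hq : 0 < q) : Continuous (PR q) := by
  have h : ∀ t : ℝ, t ^ 2 + q ≠ 0 := fun t => by positivity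
  unfold PR
  refine (PiLp.continuous_toLp 2 _).comp ?_
  refine continuous_pi fun i => ?_
  fin_cases i
  · change Continuous fun t : ℝ => Real.sqrt q * (2 * ((t ^ 2 - q) / (t ^ 2 + q)) ^ 2 - 1)
    have h1 : Continuous fun t : ℝ => (t ^ 2 - q) / (t ^ 2 + q) :=
      Continuous.div (by fun_prop) (by fun_prop) h
    fun_prop
  · change Continuous fun t : ℝ => 2 * (2 * q * t / (t ^ 2 + q)) * ((t ^ 2 - q) / (t ^ 2 + q))
    have h1 : Continuous fun t : ℝ => (t ^ 2 - q) / (t ^ 2 + q) :=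
      Continuous.div (by fun_prop) (by fun_prop) h
    have h2 : Continuous fun t : ℝ => 2 * q * t / (t ^ 2 + q) :=
      Continuous.div (by fun_prop) (by fun_prop) h
    fun_prop

theorem PR_surj {q : ℝ} (hq : 0 < q) (v : Eu 2) (hv : ‖v‖ ^ 2 = q) : ∃ t : ℝ, PR q t = v := by
  rw [EuclideanSpace.norm_sq_eq, Fin.sum_univ_two] at hv
  simp only [Real.norm_eq_abs, sq_abs] at hv
  have hr0 : 0 < Real.sqrt q := Real.sqrt_pos.2 hq
  have hr2 : Real.sqrt q ^ 2 = q := Real.sq_sqrt hq.le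
  set r := Real.sqrt q with hr
  have hx : -1 ≤ v 0 / r := by
    rw [le_div_iff₀ hr0]
    nlinarith [sq_nonneg (v 1), sq_nonneg (v 0 + r)]
  -- the point `(c, w)` of the conic
  obtain ⟨c, w, hc, hcw, h1, h2⟩ : ∃ c w : ℝ, c ≤ 0 ∧ q * c ^ 2 + w ^ 2 = q ∧
      r * (2 * c ^ 2 - 1) = v 0 ∧ 2 * w * c = v 1 := by
    have h0 : 0 ≤ (1 + v 0 / r) / 2 := by linarith
    have hs := Real.sq_sqrt h0
    set s := Real.sqrt ((1 + v 0 / r) / 2) with hs'
    have hs0 : 0 ≤ s := Real.sqrt_nonneg _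
    have e1 : r * (2 * s ^ 2 - 1) = v 0 := by
      rw [hs]; field_simp; ring
    rcases eq_or_lt_of_le hs0 with h | h
    · refine ⟨0, r, le_rfl, by rw [hr2]; ring, ?_, ?_⟩
      · rw [← h] at e1
        exact e1
      · rw [← h] at e1
        have h3 : v 0 = -r := by rw [← e1]; ring
        have h4 : v 1 ^ 2 = 0 := by rw [h3] at hv; nlinarith
        rw [mul_zero]
        exact (pow_eq_zero_iff two_ne_zero).1 h4 |>.symm
    · refine ⟨-s, v 1 / (2 * -s), by linarith, ?_, ?_, ?_⟩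
      · have h5 : v 1 ^ 2 = 4 * s ^ 2 * (q * (1 - s ^ 2)) := by
          have : v 1 ^ 2 = q - v 0 ^ 2 := by linarith
          rw [this, ← e1, mul_pow, hr2]
          ring
        rw [div_pow, h5]
        field_simp
        ring
      · rw [neg_sq]; exact e1
      · field_simp
  refine ⟨w / (1 - c), ?_⟩
  have h1c : (0 : ℝ) < 1 - c := by linarith
  have hw2 : w ^ 2 = q * (1 - c ^ 2) := by linarith
  have ht2 : (w / (1 - c)) ^ 2 = q * (1 + c) / (1 - c) := by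
    rw [div_pow, hw2]
    field_simp
    ring
  have e3 : (w / (1 - c)) ^ 2 + q = 2 * q / (1 - c) := by
    rw [ht2]; field_simp; ring
  have e4 : ((w / (1 - c)) ^ 2 - q) / ((w / (1 - c)) ^ 2 + q) = c := by
    rw [e3, ht2]; field_simp; ring
  have e5 : 2 * q * (w / (1 - c)) / ((w / (1 - c)) ^ 2 + q) = w := by
    rw [e3]; field_simp
  unfold PR
  rw [e4, e5]
  ext i
  fin_cases i
  · exact h1
  · exact h2

theorem circle_dense {q : ℚ} (hq : 0 < q) (v : Eu 2) (hv : ‖v‖ ^ 2 = q) :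
    v ∈ closure (Set.range (PP q)) := by
  have hqr : (0 : ℝ) < q := by exact_mod_cast hq
  obtain ⟨t, rfl⟩ := PR_surj hqr v hv
  have h1 : t ∈ closure (Set.range ((↑) : ℚ → ℝ)) := Rat.denseRange_cast t
  have h2 : PR q t ∈ closure (PR q '' Set.range ((↑) : ℚ → ℝ)) :=
    image_closure_subset_closure_image (PR_cont hqr) ⟨t, h1, rfl⟩
  refine closure_mono ?_ h2
  rintro _ ⟨_, ⟨s, rfl⟩, rfl⟩
  exact ⟨s, PP_eq q s⟩

end Pool.Agent.H62.RN
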