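import Pool.Agent.H62.RN.Circ

/-!
# Rational sets on spheres, dense in several circles: all the dimensions
-/

set_option autoImplicit false

open Module

namespace Pool.Agent.H62.RN

open Pool.Agent.Results.MP_209919_co.InfiniteNonplanar

/-- A set of vectors of norm `√N` with pairwise rational distances, every hyperplane misses
infinitely many of them, and the set is dense in `k` circles in pairwise orthogonal planes. -/
def RC (d k : ℕ) (N : ℝ) : Prop := ∃ X : Set (Eu d), (∀ x ∈ X, ‖x‖ ^ 2 = N) ∧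
  (∀ x ∈ X, ∀ y ∈ X, ∃ r : ℚ, dist x y = (r : ℝ)) ∧
  (∀ a : Eu d, a ≠ 0 → ∀ b : ℝ, {x ∈ X | inner ℝ a x ≠ b}.Infinite) ∧ HasCircles d k N X

/-- the same with: not contained in a hyperplane -/
def SC (d k : ℕ) (N : ℝ) : Prop := ∃ X : Set (Eu d), X.Infinite ∧ (∀ x ∈ X, ‖x‖ ^ 2 = N) ∧
  (∀ x ∈ X, ∀ y ∈ X, ∃ r : ℚ, dist x y = (r : ℝ)) ∧ Spread X ∧ HasCircles d k N X

theorem robust_infinite {m : ℕ} (hm : 1 ≤ m) {X : Set (Eu m)}
    (X3 : ∀ a : Eu m, a ≠ 0 → ∀ b : ℝ, {x ∈ X | inner ℝ a x ≠ b}.Infinite) : X.Infinite := by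
  have h := X3 (EuclideanSpace.single (⟨0, hm⟩ : Fin m) (1 : ℝ)) (by
    intro h0
    have := congrArg (fun v : Eu m => v ⟨0, hm⟩) h0
    simp at this) 0
  exact h.mono fun x hx => hx.1

theorem RC.toSC {d k : ℕ} {N : ℝ} (hd : 1 ≤ d) (h : RC d k N) : SC d k N := by
  obtain ⟨X, h1, h2, h3, h4⟩ := h
  refine ⟨X, robust_infinite hd h3, h1, h2, fun a ha b => ?_, h4⟩
  obtain ⟨x, hx⟩ := (h3 a ha b).nonempty
  exact ⟨x, hx.1, hx.2⟩

theorem RC_two (q : ℚ) (hq : 0 < q) : RC 2 1 (q : ℝ) := by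
  have hqr : (0 : ℝ) < q := by exact_mod_cast hq
  have hX1 : ∀ x ∈ Set.range (PP q), ‖x‖ ^ 2 = (q : ℝ) := by
    rintro _ ⟨t, rfl⟩
    exact PP_norm hq t
  refine ⟨Set.range (PP q), hX1, ?_, ?_, ?_⟩
  · rintro _ ⟨s, rfl⟩ _ ⟨t, rfl⟩
    exact ⟨_, PP_dist hq s t⟩
  · intro a ha b
    obtain ⟨Y, h1, h2, -, -⟩ := exists_two q hq
    have hinf : (Set.range (PP q)).Infinite := by
      intro hfin
      apply h1
      refine hfin.subset fun y hy => ?_
      have h3 := circle_dense hq y (h2 y hy)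
      rwa [hfin.isClosed.closure_eq] at h3
    have hfin : {x ∈ Set.range (PP q) | inner ℝ a x = b}.Finite :=
      (line_circle_finite a ha b q).subset fun x hx => ⟨hX1 x hx.1, hx.2⟩
    refine (hinf.sdiff hfin).mono ?_
    rintro x ⟨hx1, hx2⟩
    exact ⟨hx1, fun h => hx2 ⟨hx1, h⟩⟩
  · refine ⟨Unit, inferInstance, fun _ => LinearIsometry.id, fun _ => 0, fun _ => q, rfl,
      fun _ => hqr, fun _ => by simp, fun _ v => by simp, ?_, ?_⟩
    · intro i j hij
      exact absurd (Subsingleton.elim i j) hij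
    · intro _ v hv
      refine closure_mono ?_ (by simpa using circle_dense hq v hv)
      rintro _ ⟨t, rfl⟩
      exact ⟨⟨t, rfl⟩, ⟨PP q t, by simp⟩⟩

theorem RC_union {m n d k l : ℕ} {N M1 M2 : ℝ} (hm : 1 ≤ m) (hn : 1 ≤ n)
    (L1 : Eu m →ₗᵢ[ℝ] Eu d) (L2 : Eu n →ₗᵢ[ℝ] Eu d) (e1 e2 : Eu d)
    (he1 : ∀ v, inner ℝ e1 (L1 v) = 0) (he2 : ∀ v, inner ℝ e2 (L2 v) = 0)
    (c12 : ∀ v, inner ℝ e1 (L2 v) = 0) (c21 : ∀ v, inner ℝ e2 (L1 v) = 0)
    (ho : ∀ v w, inner ℝ (L1 v) (L2 w) = 0)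
    (hN1 : ‖e1‖ ^ 2 + M1 = N) (hN2 : ‖e2‖ ^ 2 + M2 = N)
    (s : ℚ) (hs : ‖e1 - e2‖ ^ 2 + (M1 + M2) = (s : ℝ) ^ 2)
    (hspan : ∀ a : Eu d, a ≠ 0 → (∀ v, inner ℝ a (L1 v) = 0) → (∀ v, inner ℝ a (L2 v) = 0) →
      inner ℝ a e1 ≠ inner ℝ a e2)
    (h1 : RC m k M1) (h2 : RC n l M2) : RC d (k + l) N := by
  obtain ⟨X, X1, X2, X3, X4⟩ := h1
  obtain ⟨Y, Y1, Y2, Y3, Y4⟩ := h2
  have hf' : ∀ x y : Eu m, dist (e1 + L1 x) (e1 + L1 y) = dist x y := fun x y => by
    rw [dist_add_left, L1.dist_map]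
  have hg' : ∀ x y : Eu n, dist (e2 + L2 x) (e2 + L2 y) = dist x y := fun x y => by
    rw [dist_add_left, L2.dist_map]
  have hfi : Function.Injective fun x : Eu m => e1 + L1 x :=
    fun x y h => L1.injective (add_left_cancel h)
  have hgi : Function.Injective fun x : Eu n => e2 + L2 x :=
    fun x y h => L2.injective (add_left_cancel h)
  have hfg' : ∀ x ∈ X, ∀ y ∈ Y, dist (e1 + L1 x) (e2 + L2 y) = ((|s| : ℚ) : ℝ) := by
    intro x hx y hy
    have h : dist (e1 + L1 x) (e2 + L2 y) ^ 2 = |(s : ℝ)| ^ 2 := by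
      rw [sq_abs, ← hs, dist_eq_norm]
      have e : e1 + L1 x - (e2 + L2 y) = (e1 - e2) + (L1 x - L2 y) := by abel
      rw [e, norm_add_sq_real, norm_sub_sq_real (L1 x), ho, L1.norm_map, L2.norm_map, X1 x hx,
        Y1 y hy, inner_sub_left, inner_sub_right, inner_sub_right, he1, he2, c12, c21]
      ring
    rw [Rat.cast_abs]
    exact (pow_left_inj₀ dist_nonneg (abs_nonneg _) two_ne_zero).1 h
  have hXi : X.Infinite := robust_infinite hm X3
  have hYi : Y.Infinite := robust_infinite hn Y3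
  refine ⟨(fun x => e1 + L1 x) '' X ∪ (fun y => e2 + L2 y) '' Y, ?_, ?_, ?_, ?_⟩
  · rintro z (⟨x, hx, rfl⟩ | ⟨y, hy, rfl⟩)
    · beta_reduce
      rw [norm_sq_add_map L1 e1 he1, X1 x hx, hN1]
    · beta_reduce
      rw [norm_sq_add_map L2 e2 he2, Y1 y hy, hN2]
  · rintro z (⟨x, hx, rfl⟩ | ⟨x, hx, rfl⟩) w (⟨y, hy, rfl⟩ | ⟨y, hy, rfl⟩)
    · obtain ⟨s, hs⟩ := X2 x hx y hy
      exact ⟨s, by beta_reduce; rw [hf', hs]⟩
    · exact ⟨_, hfg' x hx y hy⟩
    · exact ⟨_, by rw [dist_comm]; exact hfg' y hy x hx⟩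
    · obtain ⟨s, hs⟩ := Y2 x hx y hy
      exact ⟨s, by beta_reduce; rw [hg', hs]⟩
  · intro a ha b
    have r1 : ∀ v, inner ℝ a (L1 v) =
        inner ℝ ((ContinuousLinearMap.adjoint L1.toContinuousLinearMap) a) v := fun v => by
      rw [ContinuousLinearMap.adjoint_inner_left]; rfl
    have r2 : ∀ v, inner ℝ a (L2 v) =
        inner ℝ ((ContinuousLinearMap.adjoint L2.toContinuousLinearMap) a) v := fun v => by
      rw [ContinuousLinearMap.adjoint_inner_left]; rfl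
    set a1 := (ContinuousLinearMap.adjoint L1.toContinuousLinearMap) a
    set a2 := (ContinuousLinearMap.adjoint L2.toContinuousLinearMap) a
    by_cases k1 : a1 = 0
    · by_cases k2 : a2 = 0
      · have q1 : ∀ v, inner ℝ a (L1 v) = 0 := fun v => by rw [r1, k1, inner_zero_left]
        have q2 : ∀ v, inner ℝ a (L2 v) = 0 := fun v => by rw [r2, k2, inner_zero_left]
        have hne := hspan a ha q1 q2
        by_cases hb : inner ℝ a e1 = b
        · refine (hYi.image hgi.injOn).mono ?_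
          rintro _ ⟨x, hx, rfl⟩
          refine ⟨Or.inr ⟨x, hx, rfl⟩, ?_⟩
          beta_reduce
          rw [inner_add_right, q2, add_zero, ← hb]
          exact fun h => hne h.symm
        · refine (hXi.image hfi.injOn).mono ?_
          rintro _ ⟨x, hx, rfl⟩
          refine ⟨Or.inl ⟨x, hx, rfl⟩, ?_⟩
          beta_reduce
          rw [inner_add_right, q1, add_zero]
          exact hb
      · refine ((Y3 a2 k2 (b - inner ℝ a e2)).image hgi.injOn).mono ?_
        rintro _ ⟨x, hx, rfl⟩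
        refine ⟨Or.inr ⟨x, hx.1, rfl⟩, fun h' => hx.2 ?_⟩
        beta_reduce at h'
        rw [inner_add_right, r2] at h'
        linarith
    · refine ((X3 a1 k1 (b - inner ℝ a e1)).image hfi.injOn).mono ?_
      rintro _ ⟨x, hx, rfl⟩
      refine ⟨Or.inl ⟨x, hx.1, rfl⟩, fun h' => hx.2 ?_⟩
      beta_reduce at h'
      rw [inner_add_right, r1] at h'
      linarith
  · exact circles_union X4 Y4 L1 L2 e1 e2 he1 he2 hN1 hN2 ho

/-- first summand -/
noncomputable def inL (m n : ℕ) : Eu m →ₗᵢ[ℝ] Eu (m + n) where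
  toFun x := AP x 0
  map_add' x y := by
    ext i
    refine Fin.addCases (fun j => ?_) (fun j => ?_) i <;> simp [AP]
  map_smul' c x := by
    ext i
    refine Fin.addCases (fun j => ?_) (fun j => ?_) i <;> simp [AP]
  norm_map' x := by
    have h := AP_norm (n := n) x 0
    rw [norm_zero] at h
    exact (pow_left_inj₀ (norm_nonneg _) (norm_nonneg _) two_ne_zero).1 (by
      change ‖AP x (0 : Eu n)‖ ^ 2 = _
      rw [h]; ring)

/-- second summand -/
noncomputable def inR (m n : ℕ) : Eu n →ₗᵢ[ℝ] Eu (m + n) where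
  toFun x := AP 0 x
  map_add' x y := by
    ext i
    refine Fin.addCases (fun j => ?_) (fun j => ?_) i <;> simp [AP]
  map_smul' c x := by
    ext i
    refine Fin.addCases (fun j => ?_) (fun j => ?_) i <;> simp [AP]
  norm_map' x := by
    have h := AP_norm (m := m) 0 x
    rw [norm_zero] at h
    exact (pow_left_inj₀ (norm_nonneg _) (norm_nonneg _) two_ne_zero).1 (by
      change ‖AP (0 : Eu m) x‖ ^ 2 = _
      rw [h]; ring)

/-- the hyperplane `x₀ = 0` -/
noncomputable def up (d : ℕ) : Eu d →ₗᵢ[ℝ] Eu (d + 1) where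
  toFun x := EE 0 x
  map_add' x y := by
    ext i
    refine Fin.cases ?_ (fun j => ?_) i <;> simp [EE]
  map_smul' c x := by
    ext i
    refine Fin.cases ?_ (fun j => ?_) i <;> simp [EE]
  norm_map' x := by
    have h := EE_norm 0 x
    exact (pow_left_inj₀ (norm_nonneg _) (norm_nonneg _) two_ne_zero).1 (by
      change ‖EE 0 x‖ ^ 2 = _
      rw [h]; ring)

theorem inL_apply (m n : ℕ) (x : Eu m) : inL m n x = AP x 0 := rfl
theorem inR_apply (m n : ℕ) (x : Eu n) : inR m n x = AP 0 x := rfl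
theorem up_apply (d : ℕ) (x : Eu d) : up d x = EE 0 x := rfl

theorem inLR (m n : ℕ) (x : Eu m) (y : Eu n) : inner ℝ (inL m n x) (inR m n y) = 0 := by
  rw [inL_apply, inR_apply, AP_inner, inner_zero_right, zero_add]
  have h : Rt (AP x (0 : Eu n)) = 0 := by
    ext i
    simp [Rt, AP]
  rw [h, inner_zero_left]

theorem EE_up (d : ℕ) (u : ℝ) (x : Eu d) : inner ℝ (EE u (0 : Eu d)) (up d x) = 0 := by
  rw [up_apply, EE_inner]
  have h : (WithLp.toLp 2 (fun i => (EE u (0 : Eu d)) (Fin.succ i)) : Eu d) = 0 := by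
    ext i
    simp [EE]
  rw [h, inner_zero_left, mul_zero, add_zero]

theorem RC_sum {m n k l : ℕ} {N : ℝ} (hm : 1 ≤ m) (hn : 1 ≤ n) (t : ℚ)
    (ht : 2 * N = (t : ℝ) ^ 2) (h1 : RC m k N) (h2 : RC n l N) : RC (m + n) (k + l) N := by
  refine RC_union hm hn (inL m n) (inR m n) 0 0 ?_ ?_ ?_ ?_ (inLR m n) ?_ ?_ t ?_ ?_ h1 h2
  · intro v; rw [inner_zero_left]
  · intro v; rw [inner_zero_left]
  · intro v; rw [inner_zero_left]
  · intro v; rw [inner_zero_left]
  · rw [norm_zero]; ring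
  · rw [norm_zero]; ring
  · rw [sub_zero, norm_zero, ← ht]; ring
  · intro a ha q1 q2
    exfalso
    apply ha
    apply eq_zero_of_parts
    · rw [← inner_self_eq_zero (𝕜 := ℝ)]
      have h := q1 (Lf a)
      rwa [inL_apply, AP_inner, inner_zero_right, add_zero] at h
    · rw [← inner_self_eq_zero (𝕜 := ℝ)]
      have h := q2 (Rt a)
      rwa [inR_apply, AP_inner, inner_zero_right, zero_add] at h

theorem RC_join {m n k l : ℕ} {N M1 M2 u v : ℝ} (hm : 1 ≤ m) (hn : 1 ≤ n)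
    (hu : u ^ 2 + M1 = N) (hv : v ^ 2 + M2 = N) (huv : u ≠ v) (s : ℚ)
    (hs : (u - v) ^ 2 + (M1 + M2) = (s : ℝ) ^ 2)
    (h1 : RC m k M1) (h2 : RC n l M2) : RC (m + n + 1) (k + l) N := by
  have hnorm : ∀ w : ℝ, ‖EE w (0 : Eu (m + n))‖ ^ 2 = w ^ 2 := fun w => by
    rw [EE_norm, norm_zero]; ring
  refine RC_union hm hn ((up (m + n)).comp (inL m n)) ((up (m + n)).comp (inR m n))
    (EE u 0) (EE v 0) (fun w => EE_up _ _ _) (fun w => EE_up _ _ _) (fun w => EE_up _ _ _)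
    (fun w => EE_up _ _ _) ?_ ?_ ?_ s ?_ ?_ h1 h2
  · intro x y
    change inner ℝ (up (m + n) (inL m n x)) (up (m + n) (inR m n y)) = 0
    rw [LinearIsometry.inner_map_map, inLR]
  · rw [hnorm, hu]
  · rw [hnorm, hv]
  · rw [EE_sub, sub_zero, hnorm, hs]
  · intro a ha q1 q2 h
    set a' : Eu (m + n) := WithLp.toLp 2 (fun i => a (Fin.succ i)) with ha'
    have hL : Lf a' = 0 := by
      rw [← inner_self_eq_zero (𝕜 := ℝ)]
      have h := q1 (Lf a')
      change inner ℝ a (EE 0 (AP (Lf a') 0)) = 0 at h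
      rwa [EE_inner, mul_zero, zero_add, AP_inner, inner_zero_right, add_zero] at h
    have hR : Rt a' = 0 := by
      rw [← inner_self_eq_zero (𝕜 := ℝ)]
      have h := q2 (Rt a')
      change inner ℝ a (EE 0 (AP 0 (Rt a'))) = 0 at h
      rwa [EE_inner, mul_zero, zero_add, AP_inner, inner_zero_right, zero_add] at h
    have h0 : a' = 0 := eq_zero_of_parts a' hL hR
    rw [EE_inner, EE_inner, inner_zero_right, add_zero, add_zero] at h
    have ha0 : a 0 ≠ 0 := by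
      intro h00
      apply ha
      ext i
      refine Fin.cases ?_ (fun j => ?_) i
      · exact h00
      · have : a' j = 0 := by rw [h0]; rfl
        exact this
    exact huv (mul_left_cancel₀ ha0 h)

theorem RC_even (m : ℕ) (hm : 1 ≤ m) : ∀ t : ℚ, 0 < t → RC (2 * m) m ((t : ℝ) ^ 2 / 2) := by
  induction m, hm using Nat.le_induction with
  | base =>
    intro t ht
    have h := RC_two (t ^ 2 / 2) (by positivity)
    push_cast at h
    exact h
  | succ m hm ih =>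
    intro t ht
    have h := RC_two (t ^ 2 / 2) (by positivity)
    push_cast at h
    exact RC_sum (m := 2 * m) (n := 2) (by omega) (by norm_num) t (by ring) (ih t ht) h

theorem RC_add_three {m k : ℕ} (hm : 1 ≤ m) (h : ∀ t : ℚ, 0 < t → RC m k ((t : ℝ) ^ 2 / 2))
    (q : ℚ) (hq : 0 < q) : RC (m + 2 + 1) (k + 1) (q : ℝ) := by
  -- a rational number `s` with `0 < s` and `s ^ 2 < 2 q`
  obtain ⟨s, hs0, hs1⟩ : ∃ s : ℚ, 0 < s ∧ s ^ 2 < 2 * q := by
    refine ⟨2 * q / (2 * q + 1), by positivity, ?_⟩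
    rw [div_pow, div_lt_iff₀ (by positivity)]
    nlinarith [mul_pos hq hq, mul_pos (mul_pos hq hq) hq]
  have hA : 0 < q - s ^ 2 / 8 := by nlinarith [sq_nonneg s]
  have hqr : (0 : ℝ) < q := by exact_mod_cast hq
  have hsr : (0 : ℝ) < s := by exact_mod_cast hs0
  have hs1r : (s : ℝ) ^ 2 < 2 * q := by exact_mod_cast hs1
  have hAr : (0 : ℝ) < (q : ℝ) - (s : ℝ) ^ 2 / 8 := by exact_mod_cast hA
  set u : ℝ := Real.sqrt ((q : ℝ) - (s : ℝ) ^ 2 / 8) with hu
  have hu0 : 0 < u := Real.sqrt_pos.2 hAr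
  have hu2 : u ^ 2 = (q : ℝ) - (s : ℝ) ^ 2 / 8 := Real.sq_sqrt hAr.le
  set v : ℝ := (2 * (q : ℝ) - (s : ℝ) ^ 2) / (2 * u) with hv
  have huv2 : 2 * u * v = 2 * (q : ℝ) - (s : ℝ) ^ 2 := by
    rw [hv]; field_simp
  have hv0 : 0 < v := div_pos (by linarith) (by linarith)
  have hvu : v < u := by
    rw [hv, div_lt_iff₀ (by linarith)]
    nlinarith [sq_nonneg (s : ℝ), pow_pos hsr 2]
  have hv2 : v ^ 2 = (2 * (q : ℝ) - (s : ℝ) ^ 2) ^ 2 / (4 * ((q : ℝ) - (s : ℝ) ^ 2 / 8)) := by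
    rw [hv, div_pow, mul_pow, hu2]
    norm_num
  have hvu2 : v ^ 2 < u ^ 2 := by nlinarith
  have hM : 0 < q - (2 * q - s ^ 2) ^ 2 / (4 * (q - s ^ 2 / 8)) := by
    have h1 : (0 : ℝ) < ((q - (2 * q - s ^ 2) ^ 2 / (4 * (q - s ^ 2 / 8)) : ℚ) : ℝ) := by
      push_cast
      rw [← hv2]
      nlinarith [pow_pos hsr 2]
    exact_mod_cast h1
  have hR := RC_two _ hM
  have hL := h (s / 2) (by positivity)
  refine RC_join hm (by norm_num) (u := u) (v := v) ?_ ?_ hvu.ne' s ?_ hL hR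
  · rw [hu2]; push_cast; ring
  · rw [hv2]; push_cast; ring
  · push_cast
    rw [← hv2]
    nlinarith [hu2, huv2]

/-- All the dimensions except for 3, 4, 6. -/
theorem RC_all (d : ℕ) (hd : d = 5 ∨ 7 ≤ d) (q : ℚ) (hq : 0 < q) :
    RC d ((d - 1) / 2) (q : ℝ) := by
  have hodd : ∀ m : ℕ, 1 ≤ m → ∀ q : ℚ, 0 < q → RC (2 * m + 2 + 1) (m + 1) (q : ℝ) :=
    fun m hm q hq => RC_add_three (by omega) (RC_even m hm) q hq
  have heven : ∀ m : ℕ, 1 ≤ m → ∀ q : ℚ, 0 < q →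
      RC (2 * m + 2 + 1 + 2 + 1) (m + 1 + 1) (q : ℝ) := by
    intro m hm q hq
    refine RC_add_three (by omega) (fun t ht => ?_) q hq
    have h := hodd m hm (t ^ 2 / 2) (by positivity)
    push_cast at h
    exact h
  rcases Nat.even_or_odd' d with ⟨k, hk | hk⟩
  · have h := heven (k - 3) (by omega) q hq
    have e : 2 * (k - 3) + 2 + 1 + 2 + 1 = d := by omega
    have e' : k - 3 + 1 + 1 = (d - 1) / 2 := by omega
    rwa [e, e'] at h
  · have h := hodd (k - 1) (by omega) q hq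
    have e : 2 * (k - 1) + 2 + 1 = d := by omega
    have e' : k - 1 + 1 = (d - 1) / 2 := by omega
    rwa [e, e'] at h

/-- one more dimension and a pole -/
theorem SC_succ {d k : ℕ} (h : ∀ q : ℚ, 0 < q → SC d k (q : ℝ)) (q : ℚ) (hq : 0 < q) :
    SC (d + 1) k (q : ℝ) := by
  obtain ⟨N, hN⟩ := exists_nat_gt (1 / q + 1)
  have hN0 : (0 : ℚ) < N := lt_trans (by positivity) hN
  set m : ℚ := 1 / N with hm
  have hm0 : 0 < m := by positivity
  have hmq : m ^ 2 < q := by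
    have h1 : 1 < N * q := by
      have : 1 / q < N := by linarith
      rwa [div_lt_iff₀ hq] at this
    have h2 : (1 : ℚ) < N := by
      have : 0 < 1 / q := by positivity
      linarith
    rw [hm, div_pow, one_pow, div_lt_iff₀ (by positivity)]
    nlinarith
  have hq' : 0 < m ^ 2 - m ^ 4 / (4 * q) := by
    have : m ^ 4 / (4 * q) < m ^ 2 := by
      rw [div_lt_iff₀ (by positivity)]
      nlinarith [sq_nonneg m, pow_pos hm0 2]
    linarith
  obtain ⟨X, hXi, hXn, hXr, hXs, hXc⟩ := h (m ^ 2 - m ^ 4 / (4 * q)) hq'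
  have hqr : (0 : ℝ) < q := by exact_mod_cast hq
  have hmr : (0 : ℝ) < m := by exact_mod_cast hm0
  set ρ := Real.sqrt q with hρ
  have hρ0 : 0 < ρ := Real.sqrt_pos.2 hqr
  have hρ2 : ρ ^ 2 = q := Real.sq_sqrt hqr.le
  set h : ℝ := ρ - (m : ℝ) ^ 2 / (2 * ρ) with hh
  have e1 : h ^ 2 + (((m ^ 2 - m ^ 4 / (4 * q) : ℚ)) : ℝ) = q := by
    push_cast
    rw [hh, ← hρ2]
    field_simp
    ring
  have e2 : (h - ρ) ^ 2 + (((m ^ 2 - m ^ 4 / (4 * q) : ℚ)) : ℝ) = (m : ℝ) ^ 2 := by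
    push_cast
    rw [hh, ← hρ2]
    field_simp
    ring
  have hXne : X.Nonempty := hXi.nonempty
  have hpole : ∀ x ∈ X, dist (EE h x) (EE ρ 0) = m := by
    intro x hx
    have h1 : dist (EE h x) (EE ρ 0) ^ 2 = (m : ℝ) ^ 2 := by
      rw [EE_dist, dist_zero_right, hXn x hx, e2]
    exact (pow_left_inj₀ dist_nonneg hmr.le two_ne_zero).1 h1
  refine ⟨insert (EE ρ 0) (EE h '' X), ?_, ?_, ?_, ?_, ?_⟩
  · refine Set.Infinite.mono (Set.subset_insert _ _) (Set.Infinite.image ?_ hXi)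
    intro x _ y _ hxy
    have h1 := EE_dist h h x y
    rw [hxy, dist_self, sub_self] at h1
    have h2 : dist x y ^ 2 = 0 := by linarith
    exact dist_eq_zero.1 (by simpa using h2)
  · rintro x (rfl | ⟨y, hy, rfl⟩)
    · rw [EE_norm, hρ2]; simp
    · rw [EE_norm, hXn y hy, e1]
  · rintro x (rfl | ⟨x, hx, rfl⟩) y (rfl | ⟨y, hy, rfl⟩)
    · exact ⟨0, by simp⟩
    · exact ⟨m, by rw [dist_comm]; exact hpole y hy⟩
    · exact ⟨m, hpole x hx⟩
    · obtain ⟨r, hr⟩ := hXr x hx y hy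
      refine ⟨r, ?_⟩
      rw [← hr]
      have h1 := EE_dist h h x y
      rw [sub_self] at h1
      exact (pow_left_inj₀ dist_nonneg dist_nonneg two_ne_zero).1 (by linarith)
  · intro a ha b
    by_contra hcon
    push Not at hcon
    set a' : EuclideanSpace ℝ (Fin d) := WithLp.toLp 2 (fun i => a (Fin.succ i)) with ha'
    have h1 : ∀ x ∈ X, a 0 * h + inner ℝ a' x = b := by
      intro x hx
      rw [← hcon _ (Set.mem_insert_of_mem _ ⟨x, hx, rfl⟩), EE_inner]
    have h2 : a 0 * ρ = b := by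
      have := hcon _ (Set.mem_insert _ _)
      rw [EE_inner, inner_zero_right, add_zero] at this
      exact this
    have ha0 : a' = 0 := by
      by_contra hne
      obtain ⟨x, hx, hxb⟩ := hXs a' hne (b - a 0 * h)
      apply hxb
      have := h1 x hx
      linarith
    have ha1 : a 0 = 0 := by
      obtain ⟨x, hx⟩ := hXne
      have h3 := h1 x hx
      rw [ha0, inner_zero_left, add_zero, ← h2] at h3
      have h4 : a 0 * (ρ - h) = 0 := by linarith
      rcases mul_eq_zero.1 h4 with h5 | h5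
      · exact h5
      · exfalso
        rw [hh] at h5
        have h6 : 0 < (m : ℝ) ^ 2 / (2 * ρ) := by positivity
        linarith
    apply ha
    ext i
    refine Fin.cases ?_ (fun j => ?_) i
    · exact ha1
    · have : a' j = 0 := by rw [ha0]; rfl
      exact this
  · have h7 := hXc.map (up d) (EE h 0) (fun w => EE_up _ _ _) (N := (q : ℝ)) (by
      rw [EE_norm, norm_zero, ← e1]; ring)
    refine h7.mono ?_
    rintro _ ⟨x, hx, rfl⟩
    refine Set.mem_insert_of_mem _ ⟨x, hx, ?_⟩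
    beta_reduce
    rw [up_apply]
    ext i
    refine Fin.cases ?_ (fun j => ?_) i <;> simp [EE]

/-- All the dimensions `d ≥ 2`. -/
theorem SC_all (d : ℕ) (hd : 2 ≤ d) (q : ℚ) (hq : 0 < q) :
    SC d (max 1 ((d - 1) / 2)) (q : ℝ) := by
  have h2 : ∀ q : ℚ, 0 < q → SC 2 1 (q : ℝ) := fun q hq => (RC_two q hq).toSC (by norm_num)
  have h3 : ∀ q : ℚ, 0 < q → SC 3 1 (q : ℝ) := SC_succ h2
  have h4 : ∀ q : ℚ, 0 < q → SC 4 1 (q : ℝ) := SC_succ h3
  have h5 : ∀ q : ℚ, 0 < q → SC 5 2 (q : ℝ) := fun q hq =>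
    (RC_all 5 (Or.inl rfl) q hq).toSC (by norm_num)
  have h6 : ∀ q : ℚ, 0 < q → SC 6 2 (q : ℝ) := SC_succ h5
  rcases le_or_gt 7 d with h | h
  · have h8 := (RC_all d (Or.inr h) q hq).toSC (by omega)
    rwa [max_eq_right (by omega)]
  · interval_cases d
    · exact h2 q hq
    · exact h3 q hq
    · exact h4 q hq
    · exact h5 q hq
    · exact h6 q hq

end Pool.Agent.H62.RN
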