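import Pool.Graph.R_seed8.Results.MP_209919_co.InfiniteNonplanar

/-!
# Rational sets on spheres: intersections of lines and circles, orthogonal sums
-/

set_option autoImplicit false

open Module

namespace Pool.Agent.H62.RN

open Pool.Agent.Results.MP_209919_co.InfiniteNonplanar

/-- Euclidean space -/
abbrev Eu (d : ℕ) := EuclideanSpace ℝ (Fin d)

theorem line_circle_finite (a : Eu 2) (ha : a ≠ 0) (b N : ℝ) :
    {x : Eu 2 | ‖x‖ ^ 2 = N ∧ inner ℝ a x = b}.Finite := by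
  have hA : 0 < a 0 ^ 2 + a 1 ^ 2 := by
    by_contra hle
    push Not at hle
    have h0 : a 0 = 0 := by nlinarith [sq_nonneg (a 0), sq_nonneg (a 1)]
    have h1 : a 1 = 0 := by nlinarith [sq_nonneg (a 0), sq_nonneg (a 1)]
    apply ha
    ext i
    fin_cases i
    · exact h0
    · exact h1
  apply Set.Finite.subset (s := (fun s : ℝ => (!₂[(a 0 * b - a 1 * s) / (a 0 ^ 2 + a 1 ^ 2),
    (a 1 * b + a 0 * s) / (a 0 ^ 2 + a 1 ^ 2)] : Eu 2)) ''
      {Real.sqrt ((a 0 ^ 2 + a 1 ^ 2) * N - b ^ 2), - Real.sqrt ((a 0 ^ 2 + a 1 ^ 2) * N - b ^ 2)})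
    ((Set.toFinite _).image _)
  rintro x ⟨hx1, hx2⟩
  rw [EuclideanSpace.norm_sq_eq, Fin.sum_univ_two] at hx1
  simp only [Real.norm_eq_abs, sq_abs] at hx1
  rw [PiLp.inner_apply, Fin.sum_univ_two] at hx2
  simp only [RCLike.inner_apply, conj_trivial] at hx2
  refine ⟨a 0 * x 1 - a 1 * x 0, ?_, ?_⟩
  · have h : (a 0 * x 1 - a 1 * x 0) ^ 2 = (a 0 ^ 2 + a 1 ^ 2) * N - b ^ 2 := by
      rw [← hx1, ← hx2]
      ring
    have hD : 0 ≤ (a 0 ^ 2 + a 1 ^ 2) * N - b ^ 2 := by rw [← h]; positivity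
    have h2 : (a 0 * x 1 - a 1 * x 0) ^ 2 = Real.sqrt ((a 0 ^ 2 + a 1 ^ 2) * N - b ^ 2) ^ 2 := by
      rw [Real.sq_sqrt hD, h]
    rcases sq_eq_sq_iff_eq_or_eq_neg.1 h2 with h3 | h3
    · left; exact h3
    · right; exact h3
  · ext i
    fin_cases i
    · change (a 0 * b - a 1 * (a 0 * x 1 - a 1 * x 0)) / (a 0 ^ 2 + a 1 ^ 2) = x 0
      rw [div_eq_iff hA.ne', ← hx2]
      ring
    · change (a 1 * b + a 0 * (a 0 * x 1 - a 1 * x 0)) / (a 0 ^ 2 + a 1 ^ 2) = x 1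
      rw [div_eq_iff hA.ne', ← hx2]
      ring

/-- the point `(x, y)` -/
noncomputable def AP {m n : ℕ} (x : Eu m) (y : Eu n) : Eu (m + n) :=
  WithLp.toLp 2 (Fin.append (fun i => x i) (fun i => y i))

/-- first component -/
noncomputable def Lf {m n : ℕ} (a : Eu (m + n)) : Eu m :=
  WithLp.toLp 2 (fun i => a (Fin.castAdd n i))

/-- second component -/
noncomputable def Rt {m n : ℕ} (a : Eu (m + n)) : Eu n :=
  WithLp.toLp 2 (fun i => a (Fin.natAdd m i))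

theorem AP_norm {m n : ℕ} (x : Eu m) (y : Eu n) : ‖AP x y‖ ^ 2 = ‖x‖ ^ 2 + ‖y‖ ^ 2 := by
  rw [EuclideanSpace.norm_sq_eq, EuclideanSpace.norm_sq_eq, EuclideanSpace.norm_sq_eq,
    Fin.sum_univ_add]
  simp [AP]

theorem AP_sub {m n : ℕ} (x x' : Eu m) (y y' : Eu n) :
    AP x y - AP x' y' = AP (x - x') (y - y') := by
  ext i
  refine Fin.addCases (fun j => ?_) (fun j => ?_) i
  · simp [AP]
  · simp [AP]

theorem AP_dist {m n : ℕ} (x x' : Eu m) (y y' : Eu n) :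
    dist (AP x y) (AP x' y') ^ 2 = dist x x' ^ 2 + dist y y' ^ 2 := by
  rw [dist_eq_norm, AP_sub, AP_norm, ← dist_eq_norm, ← dist_eq_norm]

theorem AP_inner {m n : ℕ} (x : Eu m) (y : Eu n) (a : Eu (m + n)) :
    inner ℝ a (AP x y) = inner ℝ (Lf a) x + inner ℝ (Rt a) y := by
  rw [PiLp.inner_apply, PiLp.inner_apply, PiLp.inner_apply, Fin.sum_univ_add]
  simp [AP, Lf, Rt]

theorem eq_zero_of_parts {m n : ℕ} (a : Eu (m + n)) (h1 : Lf a = 0) (h2 : Rt a = 0) : a = 0 := by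
  ext i
  refine Fin.addCases (fun j => ?_) (fun j => ?_) i
  · have : (Lf a) j = 0 := by rw [h1]; rfl
    exact this
  · have : (Rt a) j = 0 := by rw [h2]; rfl
    exact this

end Pool.Agent.H62.RN
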